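import Pool.Agent.J6H55.MA.Stm

/-!
# Module MA-BLK: words of the language and concatenations
-/

set_option autoImplicit false

namespace Pool.Agent.J6H78.MA

open Pool.Agent.J6H55.MA

theorem cat_append {W : Set (List Bool)} {s t : List Bool} (hs : s ∈ Cat W) (ht : t ∈ Cat W) :
    s ++ t ∈ Cat W := by
  obtain ⟨l, hl, rfl⟩ := hs
  obtain ⟨l', hl', rfl⟩ := ht
  refine ⟨l ++ l', fun v hv => ?_, by rw [List.flatten_append]⟩
  rcases List.mem_append.1 hv with h | h
  · exact hl v h
  · exact hl' v h

theorem suffix_cut {M : ℕ} (l : List (List Bool)) : ∀ p w : List Bool, (∀ v ∈ l, v.length ≤ M) →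
    p ++ w = l.flatten → ∃ (a : List Bool) (l' : List (List Bool)), (∀ v ∈ l', v ∈ l) ∧
      a.length ≤ M ∧ w = a ++ l'.flatten := by
  induction l with
  | nil =>
    intro p w _ h
    rw [List.flatten_nil, List.append_eq_nil_iff] at h
    exact ⟨[], [], by simp, by simp, by simp [h.2]⟩
  | cons v l ih =>
    intro p w hM h
    rw [List.flatten_cons] at h
    rcases List.append_eq_append_iff.1 h with ⟨a', h1, h2⟩ | ⟨c', h1, h2⟩
    · refine ⟨a', l, fun u hu => List.mem_cons_of_mem _ hu, ?_, h2⟩
      have := hM v List.mem_cons_self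
      rw [h1, List.length_append] at this
      omega
    · obtain ⟨a, l', h3, h4, h5⟩ := ih c' w (fun u hu => hM u (List.mem_cons_of_mem _ hu)) h2.symm
      exact ⟨a, l', fun u hu => List.mem_cons_of_mem _ (h3 u hu), h4, h5⟩

theorem prefix_cut {M : ℕ} (l : List (List Bool)) : ∀ w q : List Bool, (∀ v ∈ l, v.length ≤ M) →
    w ++ q = l.flatten → ∃ (l' : List (List Bool)) (e : List Bool), (∀ v ∈ l', v ∈ l) ∧
      e.length ≤ M ∧ w = l'.flatten ++ e := by
  induction l with
  | nil =>
    intro w q _ h
    rw [List.flatten_nil, List.append_eq_nil_iff] at h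
    exact ⟨[], [], by simp, by simp, by simp [h.1]⟩
  | cons v l ih =>
    intro w q hM h
    rw [List.flatten_cons] at h
    rcases List.append_eq_append_iff.1 h with ⟨a', h1, h2⟩ | ⟨c', h1, h2⟩
    · refine ⟨[], w, by simp, ?_, by simp⟩
      have := hM v List.mem_cons_self
      rw [h1, List.length_append] at this
      omega
    · obtain ⟨l', e, h3, h4, h5⟩ := ih c' q (fun u hu => hM u (List.mem_cons_of_mem _ hu)) h2.symm
      refine ⟨v :: l', e, fun u hu => ?_, h4, ?_⟩
      · rcases List.mem_cons.1 hu with h6 | h6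
        · exact h6 ▸ List.mem_cons_self
        · exact List.mem_cons_of_mem _ (h3 u h6)
      · rw [h1, h5, List.flatten_cons, List.append_assoc]

theorem infix_cut {M : ℕ} (l : List (List Bool)) (w : List Bool) (hM : ∀ v ∈ l, v.length ≤ M)
    (h : w <:+: l.flatten) (hw : M < w.length) :
    ∃ (a : List Bool) (l' : List (List Bool)) (e : List Bool), (∀ v ∈ l', v ∈ l) ∧
      a.length ≤ M ∧ e.length ≤ M ∧ w = a ++ l'.flatten ++ e := by
  obtain ⟨p, q, h1⟩ := h
  rw [List.append_assoc] at h1
  obtain ⟨a, l₁, h2, h3, h4⟩ := suffix_cut l p (w ++ q) hM h1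
  rcases List.append_eq_append_iff.1 h4 with ⟨a', h5, h6⟩ | ⟨c', h5, h6⟩
  · exfalso
    rw [h5, List.length_append] at h3
    omega
  · obtain ⟨l', e, h7, h8, h9⟩ := prefix_cut l₁ c' q (fun v hv => hM v (h2 v hv)) h6.symm
    exact ⟨a, l', e, fun v hv => h2 v (h7 v hv), h3, h8, by rw [h5, h9, List.append_assoc]⟩

theorem take_cut {M : ℕ} (l : List (List Bool)) : ∀ F : ℕ, (∀ v ∈ l, v.length ≤ M) →
    F ≤ l.flatten.length → ∃ l₁ l₂ : List (List Bool), l = l₁ ++ l₂ ∧
      F ≤ l₁.flatten.length ∧ l₁.flatten.length ≤ F + M := by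
  induction l with
  | nil =>
    intro F _ h
    exact ⟨[], [], rfl, h, by simp⟩
  | cons v l ih =>
    intro F hM h
    rw [List.flatten_cons, List.length_append] at h
    have hv := hM v List.mem_cons_self
    obtain ⟨l₁, l₂, h1, h2, h3⟩ := ih (F - v.length) (fun u hu => hM u (List.mem_cons_of_mem _ hu))
      (by omega)
    by_cases hF : F ≤ v.length
    · refine ⟨[v], l, rfl, ?_, ?_⟩
      · simpa using hF
      · simp only [List.flatten_cons, List.flatten_nil, List.append_nil]
        omega
    · refine ⟨v :: l₁, l₂, by rw [h1]; rfl, ?_, ?_⟩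
      · rw [List.flatten_cons, List.length_append]
        omega
      · rw [List.flatten_cons, List.length_append]
        omega

theorem drop_cut {M : ℕ} (l : List (List Bool)) (F : ℕ) (hM : ∀ v ∈ l, v.length ≤ M)
    (hF : F ≤ l.flatten.length) : ∃ l₁ l₂ : List (List Bool), l = l₁ ++ l₂ ∧
      F ≤ l₂.flatten.length ∧ l₂.flatten.length ≤ F + M := by
  induction l with
  | nil => exact ⟨[], [], rfl, hF, by simp⟩
  | cons v l ih =>
    have hv := hM v List.mem_cons_self
    by_cases h : F ≤ l.flatten.length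
    · obtain ⟨l₁, l₂, h1, h2, h3⟩ := ih (fun u hu => hM u (List.mem_cons_of_mem _ hu)) h
      exact ⟨v :: l₁, l₂, by rw [h1]; rfl, h2, h3⟩
    · refine ⟨[], v :: l, rfl, hF, ?_⟩
      rw [List.flatten_cons, List.length_append]
      omega

theorem length_win (x : ℕ → Bool) (i n : ℕ) : (win x i n).length = n := by
  simp [win]

theorem win_get (x : ℕ → Bool) {n i : ℕ} (h : i < n) : (win x 0 n)[i]? = some (x i) := by
  simp [win, h]

theorem win_of (s : List Bool) : win (fun i => s[i]?.getD false) 0 s.length = s := by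
  apply List.ext_getElem?
  intro i
  by_cases h : i < s.length
  · rw [win_get _ h, List.getElem?_eq_getElem h]
    simp
  · rw [List.getElem?_eq_none (by rw [length_win]; omega), List.getElem?_eq_none (by omega)]

theorem mis_le (x z : ℕ → Bool) (n b c : ℕ) (h : ∀ i, b ≤ i → i + c < n → x i = z i) :
    mis x z n ≤ b + c := by
  have h1 : ((Finset.range n).filter fun i => x i ≠ z i) ⊆
      Finset.range b ∪ Finset.Ico (n - c) n := by
    intro i hi
    rw [Finset.mem_filter, Finset.mem_range] at hi
    rw [Finset.mem_union, Finset.mem_range, Finset.mem_Ico]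
    by_contra h2
    exact hi.2 (h i (by omega) (by omega))
  unfold mis
  refine (Finset.card_le_card h1).trans ((Finset.card_union_le _ _).trans ?_)
  rw [Finset.card_range, Nat.card_Ico]
  omega

theorem get_mid (g₁ g₂ f₁ f₂ m : List Bool) (h : g₁.length = f₁.length) {i : ℕ}
    (h1 : f₁.length ≤ i) (h2 : i < f₁.length + m.length) :
    (g₁ ++ m ++ g₂)[i]? = (f₁ ++ m ++ f₂)[i]? := by
  rw [List.append_assoc, List.append_assoc, List.getElem?_append_right (by omega),
    List.getElem?_append_right h1, List.getElem?_append_left (by omega),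
    List.getElem?_append_left (by omega), h]

theorem blk (hfro : S_fro) : S_blk := by
  intro W K M hW
  obtain ⟨F, hF⟩ := hfro W K M hW
  refine ⟨4 * M + 2 * F + 1, fun n hn x => ?_⟩
  by_cases hx : win x 0 n ∈ Lng W
  · obtain ⟨s, ⟨l, hl, rfl⟩, hw⟩ := hx
    obtain ⟨a, l', e, h1, h2, h3, h4⟩ := infix_cut l (win x 0 n) (fun v hv => hW.hi v (hl v hv)) hw
      (by rw [length_win]; omega)
    have hn' : n = a.length + l'.flatten.length + e.length := by
      have h := congrArg List.length h4
      rwa [length_win, List.length_append, List.length_append] at h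
    have hM' : ∀ v ∈ l', v.length ≤ M := fun v hv => hW.hi v (hl v (h1 v hv))
    obtain ⟨l₁, l₂₃, h5, h6, h7⟩ := take_cut l' F hM' (by omega)
    subst h5
    rw [List.flatten_append, List.length_append] at hn'
    obtain ⟨l₂, l₃, h8, h9, h10⟩ := drop_cut l₂₃ F
      (fun v hv => hM' v (List.mem_append_right _ hv)) (by omega)
    subst h8
    rw [List.flatten_append, List.length_append] at hn'
    obtain ⟨f₁, hf₁, hf₁'⟩ := hF (a.length + l₁.flatten.length) (by omega)
    obtain ⟨f₂, hf₂, hf₂'⟩ := hF (l₃.flatten.length + e.length) (by omega)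
    have hmid : l₂.flatten ∈ Cat W := ⟨l₂, fun v hv => hl v (h1 v (by simp [hv])), rfl⟩
    have hs := cat_append (cat_append hf₁ hmid) hf₂
    have hlen : (f₁ ++ l₂.flatten ++ f₂).length = n := by
      rw [List.length_append, List.length_append]
      omega
    refine ⟨fun i => (f₁ ++ l₂.flatten ++ f₂)[i]?.getD false, ?_, fun _ => ?_⟩
    · rw [← hlen, win_of]
      exact hs
    · refine (mis_le _ _ n f₁.length f₂.length fun i hi hi' => ?_).trans (by omega)
      have h11 : win x 0 n = (a ++ l₁.flatten) ++ l₂.flatten ++ (l₃.flatten ++ e) := by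
        rw [h4, List.flatten_append, List.flatten_append]
        simp only [List.append_assoc]
      have h12 := win_get x (n := n) (i := i) (by omega)
      rw [h11, get_mid (a ++ l₁.flatten) (l₃.flatten ++ e) f₁ f₂ l₂.flatten
        (by rw [List.length_append]; omega) hi (by omega)] at h12
      show x i = (f₁ ++ l₂.flatten ++ f₂)[i]?.getD false
      rw [h12]
      rfl
  · obtain ⟨s, hs, hs'⟩ := hF n (by omega)
    refine ⟨fun i => s[i]?.getD false, ?_, fun h => absurd h hx⟩
    rw [← hs', win_of]
    exact hs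

end Pool.Agent.J6H78.MA
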